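import Mathlib
import Pool.Agent.H239R3.KCe

set_option autoImplicit false

open MeasureTheory ProbabilityTheory

namespace Pool.Agent.Results.MP_c12967_pr.KleinInvariance

/-- Every stationary 1-dependent 4-colouring of the integers is invariant in law under each of the
three fixed-point-free involutions of the four colours, that is under the Klein four-group. -/
theorem result : ∀ μ : Measure (ℤ → Fin 4),
      IsProbabilityMeasure μ →
      Measure.map (fun x : ℤ → Fin 4 => fun n : ℤ => x (n + 1)) μ = μ →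
      (∀ᵐ x ∂μ, ∀ n : ℤ, x n ≠ x (n + 1)) →
      (∀ A B : Set ℤ, (∀ a ∈ A, ∀ b ∈ B, 1 < |a - b|) →
        Indep (⨆ a ∈ A, MeasurableSpace.comap (fun x : ℤ → Fin 4 => x a) (⊤ : MeasurableSpace (Fin 4)))
          (⨆ b ∈ B, MeasurableSpace.comap (fun x : ℤ → Fin 4 => x b) (⊤ : MeasurableSpace (Fin 4))) μ) →
      ∀ σ : Equiv.Perm (Fin 4), (∀ a, σ a ≠ a) → (∀ a, σ (σ a) = a) →
        Measure.map (fun x : ℤ → Fin 4 => fun n : ℤ => σ (x n)) μ = μ := by
  intro μ hμ hs hp hi σ h1 h2
  exact Pool.Agent.H239R3.KC.klein hs hp hi σ ⟨h1, h2⟩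

end Pool.Agent.Results.MP_c12967_pr.KleinInvariance
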